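import Pool.Agent.W842.RST.Asym

/-! The diameter exponent of the random spanning tree with weights `exp (U ^ (-γ))`, `γ ≥ 1/3`. -/

set_option autoImplicit false

namespace Pool.Agent.Results.MP_1c11af_pr.HeavyTailExponent

open Pool.Agent.W842.RST

/-- For every `γ ≥ 1/3` the diameter of the random spanning tree in random environment with the
weights `exp (U ^ (-γ))` is `n ^ (1/3 + o(1))`; in particular there is no exponent in the open
interval `(1/3, 1/2)`. -/
theorem result : ∀ γ : ℝ, 1 / 3 ≤ γ → HasExponent γ (1 / 3) ∧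
    ¬ ∃ α : ℝ, 1 / 3 < α ∧ α < 1 / 2 ∧ HasExponent γ α := by
  intro γ hγ
  refine ⟨hasExponent_third hγ, ?_⟩
  rintro ⟨α, h1, _, hα⟩
  have h2 := (exponent_bounds (by linarith : 0 < γ) hα).2
  rw [min_eq_right hγ] at h2
  linarith

end Pool.Agent.Results.MP_1c11af_pr.HeavyTailExponent
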